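import Pool.Agent.H59.L.T374d34.N483.KM.StmO
import Pool.Agent.H59.L.S8.H212R2.KLS.T1

/-!
# Supporting functionals of the volume of intersections of sublevel sets
-/

set_option autoImplicit false
set_option linter.unusedSectionVars false

namespace Pool.Agent.N603.KM

open MeasureTheory Set Filter Topology
open scoped ENNReal

section gen

variable {F : Type*} [NormedAddCommGroup F] [NormedSpace ℝ F]
  [MeasurableSpace F] [BorelSpace F] {r : ℕ}

/-- intersections of sublevel sets -/
def A (S : Fin r → F → ℝ) (s : Fin r → ℝ) : Set F := {x | ∀ j, S j x ≤ s j}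

/-- intersections of strict sublevel sets -/
def G (S : Fin r → F → ℝ) (s : Fin r → ℝ) : Set F := {x | ∀ j, S j x < s j}

theorem A_closed (S : Fin r → F → ℝ) (hc : ∀ j, Continuous (S j)) (s : Fin r → ℝ) :
    IsClosed (A S s) := by
  have : A S s = ⋂ j, {x | S j x ≤ s j} := by ext x; simp [A]
  rw [this]
  exact isClosed_iInter fun j => isClosed_le (hc j) continuous_const

theorem G_open (S : Fin r → F → ℝ) (hc : ∀ j, Continuous (S j)) (s : Fin r → ℝ) :
    IsOpen (G S s) := by
  have : G S s = ⋂ j, {x | S j x < s j} := by ext x; simp [G]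
  rw [this]
  exact isOpen_iInter_of_finite fun j => isOpen_lt (hc j) continuous_const

theorem G_sub (S : Fin r → F → ℝ) (s : Fin r → ℝ) : G S s ⊆ A S s := fun _ hx j => (hx j).le

theorem A_mono (S : Fin r → F → ℝ) {s s' : Fin r → ℝ} (h : s ≤ s') : A S s ⊆ A S s' :=
  fun _ hx j => (hx j).trans (h j)

theorem A_conv (S : Fin r → F → ℝ) (hS : ∀ j, ConvexOn ℝ univ (S j)) (s : Fin r → ℝ) :
    Convex ℝ (A S s) := by
  have : A S s = ⋂ j, {x | S j x ≤ s j} := by ext x; simp [A]
  rw [this]
  refine convex_iInter fun j => ?_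
  have := (hS j).convex_le (s j)
  simpa using this

theorem G_conv (S : Fin r → F → ℝ) (hS : ∀ j, ConvexOn ℝ univ (S j)) (s : Fin r → ℝ) :
    Convex ℝ (G S s) := by
  have : G S s = ⋂ j, {x | S j x < s j} := by ext x; simp [G]
  rw [this]
  refine convex_iInter fun j => ?_
  have := (hS j).convex_lt (s j)
  simpa using this

theorem comb (S : Fin r → F → ℝ) (hS : ∀ j, ConvexOn ℝ univ (S j)) (j : Fin r) (x y : F) (t : ℝ)
    (h0 : 0 ≤ t) (h1 : t ≤ 1) :
    S j ((1 - t) • x + t • y) ≤ (1 - t) * S j x + t * S j y := by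
  have := (hS j).2 (mem_univ x) (mem_univ y) (by linarith : 0 ≤ 1 - t) h0 (by ring)
  simpa using this

variable [FiniteDimensional ℝ F] (μ : Measure F) [μ.IsAddHaarMeasure]

theorem PLset (t : ℝ) (ht0 : 0 < t) (ht1 : t < 1) (a b c : Set F) (ha : MeasurableSet a)
    (hb : MeasurableSet b) (hc : MeasurableSet c)
    (H : ∀ x ∈ a, ∀ y ∈ b, (1 - t) • x + t • y ∈ c) :
    μ a ^ (1 - t) * μ b ^ t ≤ μ c := by
  have := Pool.Agent.H212R2.KLS.PL μ t ht0 ht1 (a.indicator 1) (b.indicator 1) (c.indicator 1)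
    (measurable_one.indicator ha) (measurable_one.indicator hb) (measurable_one.indicator hc)
    (by
      intro x y
      by_cases hx : x ∈ a
      · by_cases hy : y ∈ b
        · rw [indicator_of_mem hx, indicator_of_mem hy, indicator_of_mem (H x hx y hy)]
          simp
        · rw [indicator_of_notMem hy, ENNReal.zero_rpow_of_pos ht0]
          simp
      · rw [indicator_of_notMem hx, ENNReal.zero_rpow_of_pos (by linarith)]
        simp)
  rwa [lintegral_indicator_one ha, lintegral_indicator_one hb, lintegral_indicator_one hc] at this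

theorem phi_log (S : Fin r → F → ℝ) (hS : ∀ j, ConvexOn ℝ univ (S j))
    (hc : ∀ j, Continuous (S j)) (t : ℝ) (ht0 : 0 < t) (ht1 : t < 1) (s s' : Fin r → ℝ) :
    μ (A S s) ^ (1 - t) * μ (A S s') ^ t ≤ μ (A S ((1 - t) • s + t • s')) := by
  refine PLset μ t ht0 ht1 _ _ _ (A_closed S hc s).measurableSet (A_closed S hc s').measurableSet
    (A_closed S hc _).measurableSet ?_
  intro x hx y hy j
  have h1 := comb S hS j x y t ht0.le ht1.le
  have h2 := mul_le_mul_of_nonneg_left (hx j) (by linarith : 0 ≤ 1 - t)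
  have h3 := mul_le_mul_of_nonneg_left (hy j) ht0.le
  simp only [Pi.add_apply, Pi.smul_apply, smul_eq_mul]
  linarith

theorem U_conv (S : Fin r → F → ℝ) (hS : ∀ j, ConvexOn ℝ univ (S j))
    (hc : ∀ j, Continuous (S j)) (e : Fin r → ℝ) (h0 : μ (A S e) ≠ 0) (ht : μ (A S e) ≠ ⊤) :
    Convex ℝ {s : Fin r → ℝ | μ (A S e) ≤ μ (A S s)} := by
  intro s hs s' hs' a b ha hb hab
  rcases ha.eq_or_lt with h | ha
  · rw [← h, zero_add] at hab
    rw [← h, hab]; simpa using hs'
  rcases hb.eq_or_lt with h | hb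
  · rw [← h, add_zero] at hab
    rw [← h, hab]; simpa using hs
  have ha' : a = 1 - b := by linarith
  rw [ha']
  have hb1 : b < 1 := by linarith
  have key := phi_log μ S hS hc b hb hb1 s s'
  refine le_trans ?_ key
  calc μ (A S e) = μ (A S e) ^ (1 - b) * μ (A S e) ^ b := by
        rw [← ENNReal.rpow_add _ _ h0 ht]; simp
    _ ≤ _ := by
        have h1 : μ (A S e) ≤ μ (A S s) := hs
        have h2 : μ (A S e) ≤ μ (A S s') := hs'
        exact mul_le_mul' (ENNReal.rpow_le_rpow h1 (by linarith)) (ENNReal.rpow_le_rpow h2 hb.le)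

theorem strict_lt [Nontrivial F] (S : Fin r → F → ℝ) (hS : ∀ j, ConvexOn ℝ univ (S j))
    (hc : ∀ j, Continuous (S j)) (e : Fin r → ℝ) (hb : ∀ s, Bornology.IsBounded (A S s))
    (x0 : F) (hx0 : x0 ∈ G S e) (ε : ℝ) (hε : 0 < ε) :
    μ (A S (e - fun _ => ε)) < μ (A S e) := by
  have hfin : ∀ s, μ (A S s) < ⊤ := fun s =>
    (Metric.isCompact_of_isClosed_isBounded (A_closed S hc s) (hb s)).measure_lt_top
  have hne : (A S e).Nonempty := ⟨x0, G_sub S e hx0⟩
  have hnu : A S e ≠ univ := by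
    intro h
    have := hb e
    rw [h] at this
    exact NormedSpace.unbounded_univ ℝ F this
  obtain ⟨x, hx⟩ := nonempty_frontier_iff.mpr ⟨hne, hnu⟩
  rw [(A_closed S hc e).frontier_eq] at hx
  have hj : ∃ j, e j ≤ S j x := by
    by_contra hcon
    push Not at hcon
    exact hx.2 (mem_interior.mpr ⟨G S e, G_sub S e, G_open S hc e, hcon⟩)
  obtain ⟨j, hj⟩ := hj
  have hxn : x ∉ A S (e - fun _ => ε) := by
    intro h
    have := h j
    simp only [Pi.sub_apply] at this
    linarith
  have hint : (interior (A S e)).Nonempty :=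
    ⟨x0, mem_interior.mpr ⟨G S e, G_sub S e, G_open S hc e, hx0⟩⟩
  have hxc : x ∈ closure (interior (A S e)) := by
    rw [(A_conv S hS e).closure_interior_eq_closure_of_nonempty_interior hint]
    exact subset_closure hx.1
  have hWo : IsOpen (A S (e - fun _ => ε))ᶜ := (A_closed S hc _).isOpen_compl
  obtain ⟨y, hy⟩ := mem_closure_iff.mp hxc _ hWo hxn
  have hpos : 0 < μ ((A S (e - fun _ => ε))ᶜ ∩ interior (A S e)) :=
    (hWo.inter isOpen_interior).measure_pos μ ⟨y, hy⟩
  have hdis : Disjoint (A S (e - fun _ => ε)) ((A S (e - fun _ => ε))ᶜ ∩ interior (A S e)) :=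
    disjoint_compl_right.mono_right inter_subset_left
  have hsub : A S (e - fun _ => ε) ∪ ((A S (e - fun _ => ε))ᶜ ∩ interior (A S e)) ⊆ A S e := by
    refine union_subset (A_mono S ?_) (inter_subset_right.trans interior_subset)
    intro i
    simp only [Pi.sub_apply]
    linarith
  calc μ (A S (e - fun _ => ε))
      < μ (A S (e - fun _ => ε)) + μ ((A S (e - fun _ => ε))ᶜ ∩ interior (A S e)) :=
        ENNReal.lt_add_right (hfin _).ne hpos.ne'
    _ = μ (A S (e - fun _ => ε) ∪ ((A S (e - fun _ => ε))ᶜ ∩ interior (A S e))) :=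
        (measure_union hdis (hWo.inter isOpen_interior).measurableSet).symm
    _ ≤ _ := measure_mono hsub

theorem closure_G (S : Fin r → F → ℝ) (hS : ∀ j, ConvexOn ℝ univ (S j))
    (s : Fin r → ℝ) (z : F) (hz : z ∈ G S s) : A S s ⊆ closure (G S s) := by
  intro x hx
  have htend : Tendsto (fun k : ℕ => (1 - 1 / ((k : ℝ) + 1)) • x + (1 / ((k : ℝ) + 1)) • z) atTop
      (𝓝 x) := by
    have h1 := tendsto_one_div_add_atTop_nhds_zero_nat (𝕜 := ℝ)
    have h2 := ((tendsto_const_nhds (x := (1 : ℝ))).sub h1).smul_const x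
    have h3 := h1.smul_const z
    have := h2.add h3
    simpa using this
  refine mem_closure_of_tendsto htend (Eventually.of_forall fun k => ?_)
  intro j
  have hk0 : 0 < 1 / ((k : ℝ) + 1) := by positivity
  have hk1 : 1 / ((k : ℝ) + 1) ≤ 1 := by
    rw [div_le_one (by positivity)]
    have : (0 : ℝ) ≤ k := Nat.cast_nonneg k
    linarith
  have h1 := comb S hS j x z _ hk0.le hk1
  have h2 := mul_le_mul_of_nonneg_left (hx j) (by linarith : 0 ≤ 1 - 1 / ((k : ℝ) + 1))
  have h3 := mul_lt_mul_of_pos_left (hz j) hk0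
  linarith

theorem vol_G (S : Fin r → F → ℝ) (hS : ∀ j, ConvexOn ℝ univ (S j))
    (s : Fin r → ℝ) (z : F) (hz : z ∈ G S s) (c : ℝ≥0∞)
    (h : ∀ ε : ℝ, 0 < ε → μ (A S (s - fun _ => ε)) ≤ c) : μ (A S s) ≤ c := by
  have h1 : μ (A S s) ≤ μ (G S s) := by
    calc μ (A S s) ≤ μ (closure (G S s)) := measure_mono (closure_G S hS s z hz)
      _ = μ (G S s) := by
        rw [closure_eq_self_union_frontier]
        refine le_antisymm ?_ (measure_mono subset_union_left)
        refine (measure_union_le _ _).trans ?_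
        rw [(G_conv S hS s).addHaar_frontier μ, add_zero]
  refine h1.trans ?_
  have h2 : G S s ⊆ ⋃ k : ℕ, A S (s - fun _ => 1 / ((k : ℝ) + 1)) := by
    intro x hx
    have hev : ∀ᶠ k : ℕ in atTop, ∀ j, 1 / ((k : ℝ) + 1) < s j - S j x := by
      rw [eventually_all]
      intro j
      exact (tendsto_one_div_add_atTop_nhds_zero_nat (𝕜 := ℝ)).eventually_lt_const
        (by have := hx j; linarith)
    obtain ⟨k, hk⟩ := hev.exists
    refine mem_iUnion.mpr ⟨k, fun j => ?_⟩
    have := hk j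
    simp only [Pi.sub_apply]
    linarith
  refine (measure_mono h2).trans ?_
  have hmono : Monotone fun k : ℕ => A S (s - fun _ => 1 / ((k : ℝ) + 1)) := by
    intro k k' hkk
    refine A_mono S ?_
    intro j
    simp only [Pi.sub_apply]
    have : 1 / ((k' : ℝ) + 1) ≤ 1 / ((k : ℝ) + 1) := by
      have : (k : ℝ) ≤ k' := by exact_mod_cast hkk
      gcongr
    linarith
  rw [hmono.measure_iUnion]
  exact iSup_le fun k => h _ (by positivity)

theorem gen [Nontrivial F] (S : Fin r → F → ℝ) (hS : ∀ j, ConvexOn ℝ univ (S j))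
    (hc : ∀ j, Continuous (S j)) (e : Fin r → ℝ) (hb : ∀ s, Bornology.IsBounded (A S s))
    (hsl : ∃ x0 : F, ∀ j, S j x0 < e j) :
    ∃ l : Fin r → ℝ, (∀ j, 0 ≤ l j) ∧ (∃ j, l j ≠ 0) ∧
      ∀ s : Fin r → ℝ, ∑ j, l j * s j ≤ ∑ j, l j * e j → μ (A S s) ≤ μ (A S e) := by
  obtain ⟨x0, hx0⟩ := hsl
  have hx0G : x0 ∈ G S e := hx0
  have hfin : ∀ s, μ (A S s) < ⊤ := fun s =>
    (Metric.isCompact_of_isClosed_isBounded (A_closed S hc s) (hb s)).measure_lt_top
  have hpos : μ (A S e) ≠ 0 := by
    have h1 : 0 < μ (G S e) := (G_open S hc e).measure_pos μ ⟨x0, hx0G⟩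
    exact (h1.trans_le (measure_mono (G_sub S e))).ne'
  set U : Set (Fin r → ℝ) := {s | μ (A S e) ≤ μ (A S s)} with hU
  have hUc : Convex ℝ U := U_conv μ S hS hc e hpos (hfin e).ne
  have hup : ∀ s, e ≤ s → s ∈ U := fun s hs => measure_mono (A_mono S hs)
  have hei : e ∉ interior U := by
    intro h
    have h1 : Tendsto (fun k : ℕ => e - fun _ : Fin r => 1 / ((k : ℝ) + 1)) atTop (𝓝 e) := by
      rw [tendsto_pi_nhds]
      intro j
      have := (tendsto_const_nhds (x := e j)).sub
        (tendsto_one_div_add_atTop_nhds_zero_nat (𝕜 := ℝ))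
      simpa using this
    have h2 := h1.eventually (isOpen_interior.mem_nhds h)
    obtain ⟨k, hk⟩ := h2.exists
    have h4 : (e - fun _ : Fin r => 1 / ((k : ℝ) + 1)) ∈ U := interior_subset hk
    have h3 : μ (A S e) ≤ μ (A S (e - fun _ : Fin r => 1 / ((k : ℝ) + 1))) := h4
    exact absurd h3 (not_le.mpr (strict_lt μ S hS hc e hb x0 hx0G _ (by positivity)))
  have he1 : (e + fun _ => 1) ∈ interior U := by
    refine mem_interior.mpr ⟨{s | ∀ j, e j < s j}, fun s hs => hup s fun j => (hs j).le, ?_, ?_⟩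
    · have : {s : Fin r → ℝ | ∀ j, e j < s j} = ⋂ j, {s | e j < s j} := by ext; simp
      rw [this]
      exact isOpen_iInter_of_finite fun j => isOpen_lt continuous_const (continuous_apply j)
    · intro j
      simp
  obtain ⟨f, hf⟩ := geometric_hahn_banach_open_point hUc.interior isOpen_interior hei
  have hfU : ∀ s ∈ U, f s ≤ f e := by
    intro s hs
    have h1 : s ∈ closure (interior U) := by
      rw [hUc.closure_interior_eq_closure_of_nonempty_interior ⟨_, he1⟩]
      exact subset_closure hs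
    have h2 : closure (interior U) ⊆ {s | f s ≤ f e} :=
      closure_minimal (fun a ha => (hf a ha).le) (isClosed_le f.continuous continuous_const)
    exact h2 h1
  have hf1 : f (fun _ => 1) < 0 := by
    have := hf _ he1
    rw [map_add] at this
    linarith
  have hsum : ∀ s : Fin r → ℝ, ∑ j, (-f (Pi.single j 1)) * s j = - f s := by
    intro s
    have h1 : f s = ∑ j, s j • f (Pi.single j 1) := by
      conv_lhs => rw [pi_eq_sum_univ' s]
      rw [map_sum]
      refine Finset.sum_congr rfl fun j _ => ?_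
      rw [map_smul]
    rw [h1, ← Finset.sum_neg_distrib]
    refine Finset.sum_congr rfl fun j _ => ?_
    rw [smul_eq_mul]
    ring
  refine ⟨fun j => -f (Pi.single j 1), ?_, ?_, ?_⟩
  · intro j
    have h1 : e + Pi.single j 1 ∈ U := hup _ (by
      intro i
      simp only [Pi.add_apply]
      have : 0 ≤ (Pi.single j (1 : ℝ) : Fin r → ℝ) i := by
        by_cases hij : i = j
        · subst hij; simp
        · simp [Pi.single_eq_of_ne hij]
      linarith)
    have h2 := hfU _ h1
    rw [map_add] at h2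
    linarith
  · by_contra hcon
    push Not at hcon
    have h1 := hsum (fun _ => 1)
    have h2 : ∑ j, (-f (Pi.single j 1)) * (1 : ℝ) = 0 :=
      Finset.sum_eq_zero fun j _ => by rw [hcon j, zero_mul]
    rw [h2] at h1
    linarith
  · intro s hs
    rw [hsum, hsum] at hs
    have hlt : ∀ s : Fin r → ℝ, f e < f s → μ (A S s) < μ (A S e) := by
      intro s hs
      by_contra hcon
      have := hfU s (not_lt.mp hcon)
      linarith
    rcases (A S s).eq_empty_or_nonempty with h | ⟨y, hy⟩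
    · rw [h]; simp
    have hz : ((1 - (1 / 2 : ℝ)) • y + (1 / 2 : ℝ) • x0) ∈
        G S ((1 - (1 / 2 : ℝ)) • s + (1 / 2 : ℝ) • e) := by
      intro j
      have h1 := comb S hS j y x0 (1 / 2) (by norm_num) (by norm_num)
      have h2 := hy j
      have h3 := hx0 j
      simp only [Pi.add_apply, Pi.smul_apply, smul_eq_mul]
      linarith
    have h1 : μ (A S ((1 - (1 / 2 : ℝ)) • s + (1 / 2 : ℝ) • e)) ≤ μ (A S e) := by
      refine vol_G μ S hS _ _ hz _ fun ε hε => (hlt _ ?_).le
      have h2 : ((1 - (1 / 2 : ℝ)) • s + (1 / 2 : ℝ) • e - fun _ => ε) =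
          (1 - (1 / 2 : ℝ)) • s + (1 / 2 : ℝ) • e - ε • (fun _ => (1 : ℝ)) := by
        ext j; simp
      rw [h2, map_sub, map_add, map_smul, map_smul, map_smul]
      simp only [smul_eq_mul]
      have h3 : ε * f (fun _ => 1) < 0 := mul_neg_of_pos_of_neg hε hf1
      linarith
    have h2 := (phi_log μ S hS hc (1 / 2) (by norm_num) (by norm_num) s e).trans h1
    have h3 : μ (A S s) ^ (1 - (1 / 2 : ℝ)) * μ (A S e) ^ (1 / 2 : ℝ) ≤
        μ (A S e) ^ (1 - (1 / 2 : ℝ)) * μ (A S e) ^ (1 / 2 : ℝ) := by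
      refine h2.trans (le_of_eq ?_)
      rw [← ENNReal.rpow_add _ _ hpos (hfin e).ne]; simp
    have h4 : μ (A S s) ^ (1 - (1 / 2 : ℝ)) ≤ μ (A S e) ^ (1 - (1 / 2 : ℝ)) := by
      refine (ENNReal.mul_le_mul_iff_left ?_ ?_).mp h3
      · exact (ENNReal.rpow_pos (pos_iff_ne_zero.mpr hpos) (hfin e).ne).ne'
      · exact ENNReal.rpow_ne_top_of_nonneg (by norm_num) (hfin e).ne
    exact (ENNReal.rpow_le_rpow_iff (by norm_num)).mp h4

end gen

open Pool.Agent.R754.KG (E)

/-- KM/OSUP -/
theorem t_OSUP (h : Pool.Agent.N483.KM.S_OBD) : Pool.Agent.N483.KM.S_OSUP := by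
  intro r n V e hn hV hb hsl
  have hV1 : ∀ j i, Continuous (V j i) := fun j i => by
    have := (hV j i).continuousOn isOpen_univ
    exact continuousOn_univ.mp this
  have : Nonempty (Fin n) := ⟨⟨0, hn⟩⟩
  have : Nontrivial (E n) := inferInstance
  have hS : ∀ j, ConvexOn ℝ univ (fun x : E n => ∑ i, V j i (x i)) := by
    intro j
    refine ⟨convex_univ, ?_⟩
    intro x _ y _ a b ha hb hab
    simp only [smul_eq_mul, Finset.mul_sum]
    rw [← Finset.sum_add_distrib]
    refine Finset.sum_le_sum fun i _ => ?_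
    have := (hV j i).2 (mem_univ (x i)) (mem_univ (y i)) ha hb hab
    simpa using this
  have hc : ∀ j, Continuous (fun x : E n => ∑ i, V j i (x i)) := by
    intro j
    refine continuous_finsetSum _ fun i _ => (hV1 j i).comp ?_
    exact (EuclideanSpace.proj i : E n →L[ℝ] ℝ).continuous
  have hne : (Pool.Agent.N483.KM.SL V e).Nonempty := by
    obtain ⟨x, hx⟩ := hsl
    exact ⟨x, fun j => (hx j).le⟩
  exact gen volume (fun j (x : E n) => ∑ i, V j i (x i)) hS hc e
    (fun s => h r n V e s hV hb hne) hsl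

end Pool.Agent.N603.KM
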